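import Pool.Agent.MP_df3b73_co.H70.Example

set_option autoImplicit false

namespace Pool.Agent.Results.MP_df3b73_co.InducedGroup

open Pool.Agent.MP_df3b73_co.H70

/-- For a proper Mathon 8-arc in PG(2, 2^h) the group induced on the seven conics is cyclic of
order 1, 2, 3, 4 or 7, and order 7 occurs exactly when `7 ∣ h`. -/
theorem result (h : ℕ) (hh : 1 ≤ h) :
    (∀ C : Finset (GaloisField 2 h × GaloisField 2 h × GaloisField 2 h),
      ClosedSeven C → ¬ Denniston C →
        IsCyclic (induced C) ∧ Nat.card (induced C) ∈ ({1, 2, 3, 4, 7} : Set ℕ)) ∧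
    ((∃ C : Finset (GaloisField 2 h × GaloisField 2 h × GaloisField 2 h),
      ClosedSeven C ∧ ¬ Denniston C ∧ Nat.card (induced C) = 7) ↔ 7 ∣ h) := by
  have h0 : h ≠ 0 := by omega
  refine ⟨fun C hC hD => ⟨(upper hC hD).1, (upper hC hD).2.1⟩, ?_, fun h7 => ?_⟩
  · rintro ⟨C, hC, hD, h7⟩
    have := (upper hC hD).2.2
    rwa [h7, GaloisField.finrank 2 h0] at this
  · obtain ⟨θ, hθ⟩ := exists_root h h0 h7
    obtain ⟨a, ha⟩ := Algebra.trace_surjective (ZMod 2) (GaloisField 2 h) 1
    have hF : 32 ≤ Nat.card (GaloisField 2 h) := by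
      rw [GaloisField.card 2 h h0]
      have : 7 ≤ h := Nat.le_of_dvd (by omega) h7
      calc 32 = 2 ^ 5 := by norm_num
        _ ≤ 2 ^ h := Nat.pow_le_pow_right (by norm_num) (by omega)
    have hC := ex_closed hθ ha
    have hD := ex_proper hF a hθ
    refine ⟨ex a, hC, hD, ?_⟩
    have h1 := (upper hC hD).2.1
    have h2 := ex_seven hθ ha
    simp only [Set.mem_insert_iff, Set.mem_singleton_iff] at h1
    omega

end Pool.Agent.Results.MP_df3b73_co.InducedGroup
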